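import Pool.Agent.Lib_helper49.FR.Sa
import Pool.Agent.Lib_helper15.RB.AtP
import Pool.Agent.Lib_helper15.RB.KU
import Pool.Agent.Lib_helper17.KR.Gen

/-!
# Rubin's conjecture for abelian `p`-extensions: integrality at `p`, existence, the full conjecture
-/

set_option autoImplicit false
set_option linter.unusedSectionVars false

namespace Pool.Agent.FR

open Pool.Agent.RB NumberField IsDedekindDomain

section

variable {F H : Type} [Field F] [NumberField F] [Field H] [NumberField H] [Algebra F H]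
  {G : Type} [CommGroup G] [Fintype G]

theorem rubinOn_sup {A : Set (MonoidAlgebra ℤ G)} {J J' : Ideal (MonoidAlgebra ℤ G)}
    {ι : G ≃* (H ≃ₐ[F] H)} {S T : Finset (HeightOneSpectrum (𝓞 F))} {r : ℕ}
    {w : Fin r → RSK.Pl H} {fr : HeightOneSpectrum (𝓞 F) → G} (h : CRF.RubinOn A ι S T w fr)
    (h1 : ∀ a ∈ J, a ∈ A) (h2 : ∀ a ∈ J', a ∈ A) :
    CRF.RubinOn ((J ⊔ J' : Ideal (MonoidAlgebra ℤ G)) : Set (MonoidAlgebra ℤ G)) ι S T w fr := by
  obtain ⟨c, Θ, hL, hΘ, M, i1, i2, e, l, hM, u, h3, h4, h5⟩ := h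
  refine ⟨c, Θ, hL, hΘ, M, i1, i2, e, l, hM, u, ⟨h3, h4, fun a ha ψ => ?_⟩⟩
  obtain ⟨x, hx, y, hy, rfl⟩ := Submodule.mem_sup.1 ha
  obtain ⟨b, hb⟩ := h5 x (h1 x hx) ψ
  obtain ⟨b', hb'⟩ := h5 y (h2 y hy) ψ
  exact ⟨b + b', by rw [add_smul, map_add, hb, hb', map_add]⟩

theorem mem_admE_aug {p e : ℕ} (hp : p.Prime) (he : Nat.card G = p ^ e) (ι : G ≃* (H ≃ₐ[F] H))
    (S : Finset (HeightOneSpectrum (𝓞 F))) {r : ℕ} (w : Fin r → RSK.Pl H) {a : MonoidAlgebra ℤ G}
    (ha : a ∈ CR.augQ p G ^ CR.mQ p G) : a ∈ CR.admE ι S w := by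
  intro q hq
  have h1 : ¬ q ∣ 1 := fun h => hq.one_lt.ne' (Nat.dvd_one.1 h)
  by_cases hqp : q = p
  · subst hqp
    exact ⟨0, CR.mQ q G, 1, Or.inr (Or.inl le_rfl), h1, a, ha, by rw [Nat.cast_one, pow_zero]⟩
  · refine ⟨0, 0, 1, Or.inl fun h => hqp ?_, h1, a, by rw [pow_zero, Ideal.one_eq_top]; trivial,
      by rw [Nat.cast_one, pow_zero]⟩
    rw [zero_add, pow_one, he] at h
    exact (Nat.prime_dvd_prime_iff_eq hq hp).1 (hq.dvd_of_dvd_pow h)

end

section Fam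

variable {F₀ F H L : Type} [Field F₀] [NumberField F₀] [Field F] [NumberField F] [Field H]
  [NumberField H] [Field L] [NumberField L] [Algebra F₀ F] [Algebra F₀ H] [Algebra F₀ L]
  [Algebra F H] [Algebra F L] [Algebra H L] [IsScalarTower F₀ F H] [IsScalarTower F₀ F L]
  [IsScalarTower F H L] [IsGalois F H] {G : Type} [CommGroup G] [Fintype G]

theorem holAll_A (ι : MulEquiv G (AlgEquiv F H H))
    (h : SymP F₀ L ∧ (∀ s t : AlgEquiv F L L, s * t = t * s) ∨ HolT F₀ F H ∨ KumN F₀ F H ∨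
      ∀ K : IntermediateField F H, IsCyclic (AlgEquiv F K K) → HolM F K) : HM.HolAll ι := by
  rcases h with h | h | h | h
  · exact Or.inl fun N hN => holM_all ι (fun K hK => holm_symA h.1 h.2 K hK) N hN
  · exact HM.holAll_of ι (Or.inl (holT_of h))
  · exact HM.holAll_of ι (Or.inr (Or.inl (kumN_of h)))
  · exact Or.inl fun N hN => holM_all ι h N hN

theorem full (ι : MulEquiv G (AlgEquiv F H H))
    (S : Finset (InfinitePlace F ⊕ HeightOneSpectrum (RingOfIntegers F)))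
    (T : Finset (HeightOneSpectrum (RingOfIntegers F))) {r : ℕ}
    (w : Fin r → InfinitePlace H ⊕ HeightOneSpectrum (RingOfIntegers H))
    (fr : HeightOneSpectrum (RingOfIntegers F) → G) (hD : Data ι S T w fr)
    (p e f : ℕ) (hp : p.Prime) (he : Nat.card G = p ^ e) (hf : Monoid.exponent G = p ^ f)
    (h : SymP F₀ L ∧ (∀ s t : AlgEquiv F L L, s * t = t * s) ∨ HolT F₀ F H ∨ KumN F₀ F H ∨
      ∀ K : IntermediateField F H, IsCyclic (AlgEquiv F K K) → HolM F K) :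
    RubinOn (Ideal.span {(p : MonoidAlgebra ℤ G) ^ e} ⊔
        Ideal.span {x | ∃ g : G, x = MonoidAlgebra.single g 1 - 1} ^
          (p ^ (f - 1) * ((e - f) * (p - 1) + 1))) ι S T w fr ∧
      (r + p ^ (f - 1) * ((e - f) * (p - 1) + 1) < S.card → RubinOn ⊤ ι S T w fr) := by
  have hD' := data_of hD
  have hH : HM.HolAll ι := holAll_A (F₀ := F₀) (L := L) ι h
  refine ⟨rubinOn_of (rubinOn_sup (HM.fin ι S.toRight T w fr hD' hH) ?_ ?_), fun hS => ?_⟩
  · intro a ha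
    refine KR.mem_admE_card ι S.toRight w ?_
    rw [he]
    push_cast
    exact Ideal.mem_span_singleton.1 ha
  · intro a ha
    refine mem_admE_aug hp he ι S.toRight w ?_
    rw [augQ_eq he, mQ_eq hp he hf]
    exact ha
  · have hpf : Fact p.Prime := ⟨hp⟩
    have hG : IsPGroup p G := IsPGroup.of_card he
    apply rubin_of
    refine (KR.gen ι S.toRight T w fr hD' hH).2 p hp hG ?_
    rw [← card_eq S hD.arch, mQ_eq hp he hf]
    omega

end Fam

end Pool.Agent.FR
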