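import Pool.Agent.Lib_helper49.FR.Tw

/-!
# Abelian extensions inside extensions with a product of symmetric groups are of holomorph type
-/

set_option autoImplicit false
set_option linter.unusedSectionVars false

namespace Pool.Agent.FR

open Pool.Agent.RB

theorem eq_one_of_pow {P : Type} [Group P] [Finite P] {m : ℕ} [NeZero m]
    (hm : Monoid.exponent P = m) (a : Units (ZMod m)) (h : ∀ g : P, g ^ (a : ZMod m).val = g) :
    a = 1 := by
  apply Units.ext
  rw [Units.val_one]
  rcases hv : (a : ZMod m).val with _ | j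
  · have h1 : m ∣ 1 := by
      rw [← hm]
      refine Monoid.exponent_dvd_of_forall_pow_eq_one fun g => ?_
      have := h g
      rw [hv, pow_zero] at this
      rw [← this, one_pow]
    have h2 : m = 1 := Nat.dvd_one.1 h1
    subst h2
    exact Subsingleton.elim _ _
  · have h1 : m ∣ j := by
      rw [← hm]
      refine Monoid.exponent_dvd_of_forall_pow_eq_one fun g => ?_
      have := h g
      rw [hv, pow_succ] at this
      exact mul_eq_right.1 this
    have h2 : (a : ZMod m) = ((a : ZMod m).val : ZMod m) := (ZMod.natCast_zmod_val _).symm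
    rw [h2, hv, Nat.cast_add, Nat.cast_one, (ZMod.natCast_eq_zero_iff j m).2 h1, zero_add]

section

variable {F₀ F H L : Type} [Field F₀] [NumberField F₀] [Field F] [NumberField F] [Field H]
  [NumberField H] [Field L] [NumberField L] [Algebra F₀ F] [Algebra F₀ L]
  [Algebra F H] [Algebra F L] [Algebra H L] [IsScalarTower F₀ F L] [IsScalarTower F H L]

/-- restriction of the scalars -/
def rs (F₀ F L : Type) [Field F₀] [Field F] [Field L] [Algebra F₀ F] [Algebra F₀ L] [Algebra F L]
    [IsScalarTower F₀ F L] : (L ≃ₐ[F] L) →* (L ≃ₐ[F₀] L) where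
  toFun g := g.restrictScalars F₀
  map_one' := rfl
  map_mul' _ _ := rfl

theorem rs_apply (g : L ≃ₐ[F] L) (x : L) : rs F₀ F L g x = g x := rfl

theorem rs_inj : Function.Injective (rs F₀ F L) := by
  intro g h hgh
  ext x
  exact DFunLike.congr_fun hgh x

/-- the action of `(ℤ/m)ˣ` on `L` -/
theorem theta_exists (hS : SymP F₀ L) (hc : ∀ s t : AlgEquiv F L L, s * t = t * s) (m : ℕ)
    [NeZero m] (hm : Monoid.exponent (L ≃ₐ[F] L) = m) :
    ∃ θ : Units (ZMod m) →* (L ≃ₐ[F₀] L), ∀ (a : Units (ZMod m)) (g : L ≃ₐ[F] L),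
      θ a * rs F₀ F L g = rs F₀ F L g ^ (a : ZMod m).val * θ a := by
  obtain ⟨h1, k, n, ⟨e⟩⟩ := hS
  let i1 : CommGroup (L ≃ₐ[F] L) := { (inferInstance : Group (L ≃ₐ[F] L)) with mul_comm := hc }
  obtain ⟨θ, hθ⟩ := twist_pi (P := L ≃ₐ[F] L) (n := n) (e.toMonoidHom.comp (rs F₀ F L)) m
    (fun g => by rw [← hm]; exact Monoid.pow_exponent_eq_one g)
  refine ⟨e.symm.toMonoidHom.comp θ, fun a g => ?_⟩
  apply e.injective
  have h2 := hθ a g
  rw [map_mul, map_mul, map_pow]
  show e (e.symm (θ a)) * _ = _ * e (e.symm (θ a))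
  rw [e.apply_symm_apply]
  exact h2

theorem mem_range_iff [IsGalois F L] (K : IntermediateField F H) (x : L) :
    x ∈ Set.range (algebraMap K L) ↔
      ∀ g : L ≃ₐ[F] L, (∀ y : K, g (algebraMap K L y) = algebraMap K L y) → g x = x := by
  have : IsGalois K L := IsGalois.tower_top_of_isGalois F K L
  rw [IsGalois.mem_range_algebraMap_iff_fixed]
  constructor
  · intro h g hg
    exact h { g with commutes' := hg }
  · intro h σ
    exact h (σ.restrictScalars F) fun y => σ.commutes y

theorem stable [IsGalois F L] (K : IntermediateField F H) (τ : L ≃ₐ[F₀] L)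
    (hτ : ∀ g : L ≃ₐ[F] L, ∃ k : ℕ, rs F₀ F L g * τ = τ * rs F₀ F L g ^ k) (x : K) :
    ∃ y : K, algebraMap K L y = τ (algebraMap K L x) := by
  have h : τ (algebraMap K L x) ∈ Set.range (algebraMap K L) := by
    rw [mem_range_iff]
    intro g hg
    obtain ⟨k, hk⟩ := hτ g
    have h1 := DFunLike.congr_fun hk (algebraMap K L x)
    have h2 : ∀ j : ℕ, (rs F₀ F L g ^ j) (algebraMap K L x) = algebraMap K L x := by
      intro j
      induction j with
      | zero => rfl
      | succ j ih =>
        rw [pow_succ, AlgEquiv.mul_apply]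
        rw [rs_apply, hg, ih]
    rw [AlgEquiv.mul_apply, AlgEquiv.mul_apply, h2] at h1
    exact h1
  exact h

theorem galois_K [IsGalois F L] (hc : ∀ s t : AlgEquiv F L L, s * t = t * s)
    (K : IntermediateField F H) : IsGalois F K := by
  have h1 : Normal F (IsScalarTower.toAlgHom F K L).fieldRange := by
    rw [IntermediateField.normal_iff_forall_map_le']
    intro τ x hx
    rw [IntermediateField.mem_map] at hx
    obtain ⟨z, ⟨y, rfl⟩, rfl⟩ := hx
    obtain ⟨y', hy'⟩ := stable (F₀ := F) (F := F) (L := L) K τ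
      (fun g => ⟨1, by rw [pow_one]; exact hc _ _⟩) y
    exact ⟨y', hy'⟩
  have h2 : Normal F K :=
    Normal.of_algEquiv (IsScalarTower.toAlgHom F K L).equivFieldRange.symm
  exact ⟨⟩

theorem holm_symA (hS : SymP F₀ L) (hc : ∀ s t : AlgEquiv F L L, s * t = t * s)
    (K : IntermediateField F H) (hK : IsCyclic (AlgEquiv F K K)) : HolM F K := by
  have hG0 : IsGalois F₀ L := hS.1
  have hG : IsGalois F L := IsGalois.tower_top_of_isGalois F₀ F L
  have hGK : IsGalois F K := galois_K (L := L) hc K
  have hfin : Finite (L ≃ₐ[F] L) := inferInstance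
  have hm0 : Monoid.exponent (L ≃ₐ[F] L) ≠ 0 := Monoid.exponent_ne_zero_of_finite
  generalize hm : Monoid.exponent (L ≃ₐ[F] L) = m at hm0
  have : NeZero m := ⟨hm0⟩
  obtain ⟨θ, hθ⟩ := theta_exists hS hc m hm
  have hpow : ∀ g : L ≃ₐ[F] L, g ^ m = 1 := fun g => by
    rw [← hm]; exact Monoid.pow_exponent_eq_one g
  -- the action on `K`
  have hst : ∀ (a : Units (ZMod m)) (x : K), ∃ y : K, algebraMap K L y = θ a (algebraMap K L x) := by
    intro a x
    refine stable K (θ a) (fun g => ⟨((a⁻¹ : Units (ZMod m)) : ZMod m).val, ?_⟩) x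
    have h1 := hθ a⁻¹ g
    rw [map_inv] at h1
    calc rs F₀ F L g * θ a = θ a * ((θ a)⁻¹ * rs F₀ F L g) * θ a := by rw [mul_inv_cancel_left]
      _ = θ a * rs F₀ F L g ^ ((a⁻¹ : Units (ZMod m)) : ZMod m).val := by
        rw [h1, mul_assoc, mul_assoc, inv_mul_cancel, mul_one]
  choose t ht using hst
  have hinj : Function.Injective (algebraMap K L) := (algebraMap K L).injective
  have t1 : ∀ x, t 1 x = x := fun x => hinj (by rw [ht, map_one]; rfl)
  have tm : ∀ a b x, t (a * b) x = t a (t b x) := fun a b x => hinj (by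
    rw [ht, ht, ht, map_mul, AlgEquiv.mul_apply])
  let θK : Units (ZMod m) →* RingEquiv K K :=
    { toFun := fun a =>
        { toFun := t a
          invFun := t a⁻¹
          left_inv := fun x => by rw [← tm, inv_mul_cancel, t1]
          right_inv := fun x => by rw [← tm, mul_inv_cancel, t1]
          map_mul' := fun x y => hinj (by rw [ht, map_mul, map_mul, map_mul, ht, ht])
          map_add' := fun x y => hinj (by rw [ht, map_add, map_add, map_add, ht, ht]) }
      map_one' := by ext x; exact congrArg _ (t1 x)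
      map_mul' := fun a b => by ext x; exact congrArg _ (tm a b x) }
  have hθK : ∀ a x, algebraMap K L (θK a x) = θ a (algebraMap K L x) := ht
  -- lifts
  have hlift : ∀ s : K ≃ₐ[F] K, ∃ g : L ≃ₐ[F] L, ∀ (k : ℕ) (x : K),
      (g ^ k) (algebraMap K L x) = algebraMap K L ((s ^ k) x) := by
    intro s
    obtain ⟨g, rfl⟩ := AlgEquiv.restrictNormalHom_surjective (F := F) (K₁ := K) L s
    refine ⟨g, fun k x => ?_⟩
    rw [← map_pow]
    exact (AlgEquiv.restrictNormal_commutes (g ^ k) K x).symm
  refine ⟨m, θK, Nat.pos_of_ne_zero hm0, ?_, ?_, ?_⟩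
  · -- `[K : F]` divides `m`
    rw [← IsGalois.card_aut_eq_finrank F K]
    obtain ⟨s, hs⟩ := hK.exists_generator
    obtain ⟨g, hg⟩ := hlift s
    rw [← orderOf_eq_card_of_forall_mem_zpowers hs, orderOf_dvd_iff_pow_eq_one]
    ext x
    apply congrArg Subtype.val
    apply hinj
    rw [← hg, hpow]
    rfl
  · intro a s x
    obtain ⟨g, hg⟩ := hlift s
    apply hinj
    rw [hθK, ← hg, hθK]
    have h1 := hg 1 x
    rw [pow_one, pow_one] at h1
    rw [← h1]
    have h2 := DFunLike.congr_fun (hθ a g) (algebraMap K L x)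
    rw [AlgEquiv.mul_apply, AlgEquiv.mul_apply, ← map_pow] at h2
    exact h2
  · intro a s h
    obtain ⟨g, hg⟩ := hlift s
    -- `θ a = g u` with `u` in the group of `L/K`
    have h1 : ∀ x : K, (rs F₀ F L g)⁻¹ (θ a (algebraMap K L x)) = algebraMap K L x := by
      intro x
      have h2 := hg 1 x
      rw [pow_one, pow_one] at h2
      rw [← hθK, h, ← h2]
      exact g.symm_apply_apply _
    let u : L ≃ₐ[F] L := AlgEquiv.ofRingEquiv (f := ((rs F₀ F L g)⁻¹ * θ a).toRingEquiv) (by
      intro x
      have h2 := h1 (algebraMap F K x)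
      rw [← IsScalarTower.algebraMap_apply F K L] at h2
      exact h2)
    have hu : rs F₀ F L u = (rs F₀ F L g)⁻¹ * θ a := by
      ext x
      rfl
    have h2 : θ a = rs F₀ F L (g * u) := by
      rw [map_mul, hu, mul_inv_cancel_left]
    refine eq_one_of_pow hm a fun g' => ?_
    have h3 := hθ a g'
    rw [h2, ← map_mul, ← map_pow, ← map_mul] at h3
    have h4 := rs_inj h3
    rw [hc (g * u) g'] at h4
    exact (mul_right_cancel h4).symm

end

end Pool.Agent.FR
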