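import Pool.Agent.Lib_helper15.RB.DefsK

/-!
# Twists of the sets with an action of a commutative group
-/

set_option autoImplicit false
set_option linter.unusedSectionVars false

namespace Pool.Agent.FR

theorem pow_val_mul {P : Type} [Monoid P] {m : ℕ} [NeZero m] (g : P) (hg : g ^ m = 1)
    (a b : ZMod m) : g ^ (a * b).val = (g ^ b.val) ^ a.val := by
  rw [ZMod.val_mul, ← pow_eq_pow_mod _ hg, ← pow_mul, mul_comm]

theorem pow_val_one {P : Type} [Monoid P] {m : ℕ} [NeZero m] (g : P) (hg : g ^ m = 1) :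
    g ^ (1 : ZMod m).val = g := by
  rw [ZMod.val_one_eq_one_mod, ← pow_eq_pow_mod _ hg, pow_one]

section Perm

variable {P Ω : Type} [CommGroup P]

theorem twist_exists (ρ : P →* Equiv.Perm Ω) (m : ℕ) [NeZero m] (hP : ∀ g : P, g ^ m = 1) :
    ∃ θ : Units (ZMod m) →* Equiv.Perm Ω, ∀ (a : Units (ZMod m)) (g : P),
      θ a * ρ g = ρ g ^ (a : ZMod m).val * θ a := by
  classical
  let R : Setoid Ω :=
    { r := fun x y => ∃ g, ρ g x = y
      iseqv := ⟨fun x => ⟨1, by rw [map_one]; rfl⟩, fun {x y} ⟨g, hg⟩ => ⟨g⁻¹, by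
        rw [map_inv, ← hg]; exact (ρ g).symm_apply_apply x⟩, fun {x y z} ⟨g, hg⟩ ⟨h, hh⟩ =>
          ⟨h * g, by rw [map_mul, Equiv.Perm.mul_apply, hg, hh]⟩⟩ }
  let rep : Ω → Ω := fun x => (Quotient.mk R x).out
  have hrep : ∀ x, ∃ g, ρ g (rep x) = x := fun x => Quotient.exact (Quotient.out_eq (Quotient.mk R x))
  have hrepe : ∀ x g, rep (ρ g x) = rep x := by
    intro x g
    have : Quotient.mk R (ρ g x) = Quotient.mk R x :=
      Quotient.sound (R.symm ⟨g, rfl⟩)
    show (Quotient.mk R (ρ g x)).out = (Quotient.mk R x).out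
    rw [this]
  choose c hc using hrep
  let f : ZMod m → Ω → Ω := fun a x => ρ (c x ^ a.val) (rep x)
  have hstab : ∀ (g : P) (x : Ω) (k : ℕ), ρ g x = x → ρ (g ^ k) x = x := by
    intro g x k h
    induction k with
    | zero => rw [pow_zero, map_one]; rfl
    | succ k ih => rw [pow_succ, map_mul, Equiv.Perm.mul_apply, h, ih]
  have key : ∀ (a : ZMod m) (x : Ω) (h : P), ρ h (rep x) = x → f a x = ρ (h ^ a.val) (rep x) := by
    intro a x h hh
    have h1 : ρ (h⁻¹ * c x) (rep x) = rep x := by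
      rw [map_mul, Equiv.Perm.mul_apply, hc, map_inv, Equiv.Perm.inv_eq_iff_eq]
      exact hh.symm
    have h2 := hstab _ _ a.val h1
    have h3 : c x ^ a.val = h ^ a.val * (h⁻¹ * c x) ^ a.val := by
      rw [← mul_pow, mul_inv_cancel_left]
    show ρ (c x ^ a.val) (rep x) = _
    rw [h3, map_mul, Equiv.Perm.mul_apply, h2]
  have frep : ∀ a x, rep (f a x) = rep x := by
    intro a x
    show rep (ρ (c x ^ a.val) (rep x)) = rep x
    rw [hrepe]
    conv_lhs => rw [← hrepe (rep x) (c x), hc]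
  have fρ : ∀ a x g, f a (ρ g x) = ρ (g ^ a.val) (f a x) := by
    intro a x g
    rw [key a (ρ g x) (g * c x) (by rw [hrepe, map_mul, Equiv.Perm.mul_apply, hc]), hrepe,
      mul_pow, map_mul, Equiv.Perm.mul_apply]
  have f1 : ∀ x, f 1 x = x := by
    intro x
    show ρ (c x ^ (1 : ZMod m).val) (rep x) = x
    rw [pow_val_one _ (hP _), hc]
  have fm : ∀ a b x, f (a * b) x = f a (f b x) := by
    intro a b x
    rw [key a (f b x) (c x ^ b.val) (by rw [frep]), frep, ← pow_val_mul _ (hP _)]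
  let θ : Units (ZMod m) →* Equiv.Perm Ω :=
    { toFun := fun a => ⟨f a, f (a⁻¹ : Units (ZMod m)), fun x => by
          rw [← fm, ← Units.val_mul, inv_mul_cancel, Units.val_one, f1], fun x => by
          rw [← fm, ← Units.val_mul, mul_inv_cancel, Units.val_one, f1]⟩
      map_one' := by
        ext x
        show f ((1 : Units (ZMod m)) : ZMod m) x = x
        rw [Units.val_one, f1]
      map_mul' := by
        intro a b
        ext x
        show f ((a * b : Units (ZMod m)) : ZMod m) x = f a (f b x)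
        rw [Units.val_mul, fm] }
  refine ⟨θ, fun a g => ?_⟩
  ext x
  show f a (ρ g x) = (ρ g ^ (a : ZMod m).val) (f a x)
  rw [fρ, map_pow]

theorem twist_pi {k : ℕ} {n : Fin k → ℕ} (ρ : P →* ((i : Fin k) → Equiv.Perm (Fin (n i))))
    (m : ℕ) [NeZero m] (hP : ∀ g : P, g ^ m = 1) :
    ∃ θ : Units (ZMod m) →* ((i : Fin k) → Equiv.Perm (Fin (n i))),
      ∀ (a : Units (ZMod m)) (g : P), θ a * ρ g = ρ g ^ (a : ZMod m).val * θ a := by
  have h := fun i : Fin k => twist_exists ((Pi.evalMonoidHom _ i).comp ρ) m hP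
  choose θ hθ using h
  refine ⟨MonoidHom.pi θ, fun a g => ?_⟩
  funext i
  exact hθ i a g

end Perm

end Pool.Agent.FR
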